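import Pool.Agent.helper83.TA.Defs

/-!
# An anisotropic form has no multiplicative subgroup (module GM of MP_fc48e7_al)
-/

set_option autoImplicit false

namespace Pool.Agent.helper83.TA

open GroupFunctor Matrix

namespace GM

open LaurentPolynomial

section
variable {R R' : Type} [CommRing R] [CommRing R']

theorem map_injective {f : R →+* R'} (hf : Function.Injective f) :
    Function.Injective (S.map f) := by
  intro x y h
  have h0 := congrArg S.a0 h
  have h1 := congrArg S.a1 h
  have h2 := congrArg S.a2 h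
  have h3 := congrArg S.b0 h
  have h4 := congrArg S.b1 h
  have h5 := congrArg S.b2 h
  exact S.ext (hf h0) (hf h1) (hf h2) (hf h3) (hf h4) (hf h5)

theorem matmap_injective {f : R →+* R'} (hf : Function.Injective f) :
    Function.Injective (fun X : Matrix I I (S R) => X.map (S.map f)) := by
  intro X Y h
  ext1 i j
  exact map_injective hf (congrFun (congrFun h i) j)

theorem sg_comm (f : R →+* R') (X : Matrix I I (S R)) :
    (X.map (S.map f)).map S.sg = (X.map S.sg).map (S.map f) := by
  ext1 i j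
  simp [S.map_sg]

theorem rh_comm (f : R →+* R') (X : Matrix I I (S R)) :
    ((X.map (S.map f)).map S.rh).transpose = ((X.map S.rh).transpose).map (S.map f) := by
  ext1 i j
  simp [S.map_rh]

theorem map_comp' {R'' : Type} [CommRing R''] (f : R →+* R') (g : R' →+* R'')
    (X : Matrix I I (S R)) :
    (X.map (S.map f)).map (S.map g) = X.map (S.map (g.comp f)) := by
  ext1 i j
  simp only [Matrix.map_apply]
  rw [S.map_map]

end

section
variable {F : Type} [Field F]

theorem ext_pow (f : F[T;T⁻¹]) : ∃ n : ℕ, ∀ m, n ≤ m → ∃ f' : Polynomial F,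
    Polynomial.toLaurent f' = T m * f := by
  obtain ⟨n, f', hf'⟩ := exists_T_pow f
  refine ⟨n, fun m hm => ⟨f' * Polynomial.X ^ (m - n), ?_⟩⟩
  rw [map_mul, hf', Polynomial.toLaurent_X_pow, mul_T_assoc, T_mul]
  congr 2
  omega

theorem ext_pow_S (x : S F[T;T⁻¹]) : ∃ n : ℕ, ∀ m, n ≤ m → ∃ x' : S (Polynomial F),
    S.map Polynomial.toLaurent x' = S.C (T m) * x := by
  obtain ⟨n0, h0⟩ := ext_pow x.a0
  obtain ⟨n1, h1⟩ := ext_pow x.a1
  obtain ⟨n2, h2⟩ := ext_pow x.a2
  obtain ⟨n3, h3⟩ := ext_pow x.b0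
  obtain ⟨n4, h4⟩ := ext_pow x.b1
  obtain ⟨n5, h5⟩ := ext_pow x.b2
  refine ⟨n0 + n1 + n2 + n3 + n4 + n5, fun m hm => ?_⟩
  obtain ⟨f0, e0⟩ := h0 m (by omega)
  obtain ⟨f1, e1⟩ := h1 m (by omega)
  obtain ⟨f2, e2⟩ := h2 m (by omega)
  obtain ⟨f3, e3⟩ := h3 m (by omega)
  obtain ⟨f4, e4⟩ := h4 m (by omega)
  obtain ⟨f5, e5⟩ := h5 m (by omega)
  refine ⟨⟨f0, f1, f2, f3, f4, f5⟩, ?_⟩
  ext1 <;> simp [e0, e1, e2, e3, e4, e5]

theorem start (g : Matrix I I (S F[T;T⁻¹])) : ∃ n : ℕ, ∃ g' : Matrix I I (S (Polynomial F)),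
    g'.map (S.map Polynomial.toLaurent) = S.C (T n : F[T;T⁻¹]) • g := by
  choose n hn using fun p : I × I => ext_pow_S (g p.1 p.2)
  refine ⟨∑ p, n p, ?_⟩
  have h : ∀ p : I × I, ∃ x' : S (Polynomial F),
      S.map Polynomial.toLaurent x' = S.C (T (∑ p, n p : ℕ)) * g p.1 p.2 := by
    intro p
    exact hn p _ (Finset.single_le_sum (fun _ _ => Nat.zero_le _) (Finset.mem_univ p))
  choose x hx using h
  refine ⟨fun i j => x (i, j), ?_⟩
  ext1 i j
  exact hx (i, j)

/-- divide by `X` -/
theorem exists_div (x : S (Polynomial F)) (h : S.map (Polynomial.evalRingHom 0) x = 0) :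
    ∃ y : S (Polynomial F), x = S.C Polynomial.X * y := by
  have key : ∀ p : Polynomial F, Polynomial.eval 0 p = 0 → ∃ q, p = Polynomial.X * q := by
    intro p hp
    rw [← Polynomial.coeff_zero_eq_eval_zero] at hp
    exact Polynomial.X_dvd_iff.mpr hp
  obtain ⟨y0, e0⟩ := key x.a0 (congrArg S.a0 h)
  obtain ⟨y1, e1⟩ := key x.a1 (congrArg S.a1 h)
  obtain ⟨y2, e2⟩ := key x.a2 (congrArg S.a2 h)
  obtain ⟨y3, e3⟩ := key x.b0 (congrArg S.b0 h)
  obtain ⟨y4, e4⟩ := key x.b1 (congrArg S.b1 h)
  obtain ⟨y5, e5⟩ := key x.b2 (congrArg S.b2 h)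
  refine ⟨⟨y0, y1, y2, y3, y4, y5⟩, ?_⟩
  ext1 <;> simp [e0, e1, e2, e3, e4, e5]

variable {t : F}

/-- a power of `X` -/
noncomputable def XX (n : ℕ) : Polynomial F := Polynomial.X ^ (n + 1) * Polynomial.X ^ (n + 1)

theorem step (h : ∀ X : Matrix I I (S F), X.map S.sg * B t = B t * X →
      (X.map S.rh).transpose * Q t * X = 0 → X = 0)
    (g : Matrix I I (S F[T;T⁻¹]))
    (h1 : g.map S.sg * B (algebraMap F F[T;T⁻¹] t) = B (algebraMap F F[T;T⁻¹] t) * g)
    (h2 : (g.map S.rh).transpose * Q (algebraMap F F[T;T⁻¹] t) * g =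
      Q (algebraMap F F[T;T⁻¹] t))
    (n : ℕ) (hn : ∃ g' : Matrix I I (S (Polynomial F)),
      g'.map (S.map Polynomial.toLaurent) = S.C (T (n + 1 : ℕ) : F[T;T⁻¹]) • g) :
    ∃ g' : Matrix I I (S (Polynomial F)),
      g'.map (S.map Polynomial.toLaurent) = S.C (T n : F[T;T⁻¹]) • g := by
  obtain ⟨g', hg'⟩ := hn
  have eT : algebraMap F F[T;T⁻¹] t = Polynomial.toLaurent (Polynomial.C t) := by
    rw [Polynomial.toLaurent_C, ← C_eq_algebraMap]
  have es : ∀ (a : F[T;T⁻¹]) (X : Matrix I I (S F[T;T⁻¹])), (S.C a • X).map S.sg =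
      S.C a • X.map S.sg := by
    intro a X
    ext1 i j
    simp [S.sg_C]
  have er : ∀ (a : F[T;T⁻¹]) (X : Matrix I I (S F[T;T⁻¹])), ((S.C a • X).map S.rh).transpose =
      S.C a • (X.map S.rh).transpose := by
    intro a X
    ext1 i j
    simp [S.rh_C]
  have k1 : g'.map S.sg * B (Polynomial.C t) = B (Polynomial.C t) * g' := by
    apply matmap_injective Polynomial.toLaurent_injective
    show (g'.map S.sg * B (Polynomial.C t)).map (S.map Polynomial.toLaurent) =
      (B (Polynomial.C t) * g').map (S.map Polynomial.toLaurent)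
    rw [Matrix.map_mul, Matrix.map_mul, B_map, ← sg_comm, hg', ← eT, es, Matrix.smul_mul, h1,
      Matrix.mul_smul]
  have k2 : (g'.map S.rh).transpose * Q (Polynomial.C t) * g' =
      S.C (XX n : Polynomial F) • Q (Polynomial.C t) := by
    apply matmap_injective Polynomial.toLaurent_injective
    show ((g'.map S.rh).transpose * Q (Polynomial.C t) * g').map (S.map Polynomial.toLaurent) =
      (S.C (XX n : Polynomial F) • Q (Polynomial.C t)).map
        (S.map Polynomial.toLaurent)
    have e3 : (S.C (XX n : Polynomial F) • Q (Polynomial.C t)).map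
        (S.map Polynomial.toLaurent) = S.C (T (n + 1 : ℕ) * T (n + 1 : ℕ) : F[T;T⁻¹]) •
          Q (algebraMap F F[T;T⁻¹] t) := by
      rw [eT, ← Polynomial.toLaurent_X_pow, ← map_mul, XX]
      ext1 i j
      simp only [Matrix.map_apply, Matrix.smul_apply, smul_eq_mul]
      rw [map_mul, S.map_C]
      exact congrArg _ (congrFun (congrFun (Q_map _ _) i) j)
    rw [e3, Matrix.map_mul, Matrix.map_mul, Q_map, ← rh_comm, hg', ← eT, er, Matrix.smul_mul,
      Matrix.smul_mul, Matrix.mul_smul, h2, smul_smul, map_mul]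
  set X0 : Matrix I I (S F) := g'.map (S.map (Polynomial.evalRingHom 0)) with hX0
  have eC : Polynomial.evalRingHom (0 : F) (Polynomial.C t) = t := by simp
  have z : X0 = 0 := by
    apply h
    · rw [hX0, sg_comm]
      conv_lhs => rw [← eC]
      conv_rhs => rw [← eC]
      rw [← B_map, ← Matrix.map_mul, ← Matrix.map_mul, k1]
    · rw [hX0, rh_comm, ← eC, ← Q_map, ← Matrix.map_mul, ← Matrix.map_mul, k2]
      ext1 i j
      simp only [Matrix.map_apply, Matrix.smul_apply, smul_eq_mul, Matrix.zero_apply]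
      rw [map_mul, S.map_C, XX]
      simp
  have hz : ∀ i j, ∃ y : S (Polynomial F), g' i j = S.C Polynomial.X * y := by
    intro i j
    exact exists_div _ (congrFun (congrFun z i) j)
  choose y hy using hz
  refine ⟨fun i j => y i j, ?_⟩
  ext1 i j
  have e4 := congrFun (congrFun hg' i) j
  simp only [Matrix.map_apply, Matrix.smul_apply, smul_eq_mul] at e4 ⊢
  rw [hy, map_mul, S.map_C, Polynomial.toLaurent_X] at e4
  have e5 : (T (-1) : F[T;T⁻¹]) * T 1 = 1 := by rw [← T_add]; simp
  have e6 : (T (-1) : F[T;T⁻¹]) * T (n + 1 : ℕ) = T n := by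
    rw [← T_add]
    congr 1
    push_cast
    ring
  calc S.map Polynomial.toLaurent (y i j)
      = S.C (T (-1) * T 1) * S.map Polynomial.toLaurent (y i j) := by rw [e5, map_one, one_mul]
    _ = S.C (T (-1)) * (S.C (T (n + 1 : ℕ)) * g i j) := by rw [map_mul, mul_assoc, e4]
    _ = S.C (T n) * g i j := by rw [← mul_assoc, ← map_mul, e6]

theorem poly (h : ∀ X : Matrix I I (S F), X.map S.sg * B t = B t * X →
      (X.map S.rh).transpose * Q t * X = 0 → X = 0)
    (g : Matrix I I (S F[T;T⁻¹]))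
    (h1 : g.map S.sg * B (algebraMap F F[T;T⁻¹] t) = B (algebraMap F F[T;T⁻¹] t) * g)
    (h2 : (g.map S.rh).transpose * Q (algebraMap F F[T;T⁻¹] t) * g =
      Q (algebraMap F F[T;T⁻¹] t)) :
    ∃ g' : Matrix I I (S (Polynomial F)), g'.map (S.map Polynomial.toLaurent) = g := by
  obtain ⟨n, hn⟩ := start g
  induction n with
  | zero =>
    obtain ⟨g', hg'⟩ := hn
    refine ⟨g', ?_⟩
    rw [hg', Nat.cast_zero, T_zero, map_one, one_smul]
  | succ n ih => exact ih (step h g h1 h2 n hn)

/-- evaluation of Laurent polynomials at a unit -/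
noncomputable def ev (R : Type) [CommRing R] [Algebra F R] (r : Rˣ) : F[T;T⁻¹] →ₐ[F] R where
  toRingHom := eval₂ (algebraMap F R) r
  commutes' a := by
    show eval₂ (algebraMap F R) r (algebraMap F F[T;T⁻¹] a) = algebraMap F R a
    rw [← C_eq_algebraMap, eval₂_C]

theorem ev_toLaurent (R : Type) [CommRing R] [Algebra F R] (r : Rˣ) :
    ((ev R r : F[T;T⁻¹] →ₐ[F] R) : F[T;T⁻¹] →+* R).comp Polynomial.toLaurent =
      Polynomial.eval₂RingHom (algebraMap F R) (r : R) := by
  apply RingHom.ext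
  intro p
  exact eval₂_toLaurent _ _ p

/-- the unit `T` -/
noncomputable def uT (R : Type) [CommRing R] : (R[T;T⁻¹])ˣ where
  val := T 1
  inv := T (-1)
  val_inv := by rw [← T_add]; simp
  inv_val := by rw [← T_add]; simp

theorem ev_uT (R : Type) [CommRing R] [Algebra F R] (r : Rˣ) :
    Units.map ((ev R r : F[T;T⁻¹] →ₐ[F] R) : F[T;T⁻¹] →* R) (uT F) = r := by
  ext
  show eval₂ (algebraMap F R) r (T 1) = r
  rw [eval₂_T, zpow_one]

end

end GM

open GM LaurentPolynomial

/-- (module GM) no homomorphism from `Gm` -/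
theorem not_isotropic_of_aniso (F : Type) [Field F] (t : F)
    (h : ∀ X : Matrix I I (S F), X.map S.sg * B t = B t * X →
      (X.map S.rh).transpose * Q t * X = 0 → X = 0) : ¬ (unitary F t).Isotropic := by
  rintro ⟨φ, hφ⟩
  set gg : SU F[T;T⁻¹] (algebraMap F F[T;T⁻¹] t) := φ.app F[T;T⁻¹] (uT F) with hgg
  obtain ⟨g0, hg0⟩ := poly h (gg.1 : Matrix I I (S F[T;T⁻¹])) gg.2.1 gg.2.2
  -- the value at any unit
  have hval : ∀ (R : Type) [CommRing R] [Algebra F R] (r : Rˣ),
      (((show SU R (algebraMap F R t) from φ.app R r).1 : Matrix I I (S R))) =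
        g0.map (S.map (Polynomial.eval₂RingHom (algebraMap F R) (r : R))) := by
    intro R _ _ r
    have e1 := φ.naturality (ev R r) (uT F)
    have e2 : (Gm F).map (ev R r) (uT F) = r := ev_uT R r
    rw [e2] at e1
    have e3 : (((show SU R (algebraMap F R t) from φ.app R r).1 : Matrix I I (S R))) =
        (gg.1 : Matrix I I (S F[T;T⁻¹])).map (S.map ((ev R r : F[T;T⁻¹] →ₐ[F] R) :
          F[T;T⁻¹] →+* R)) :=
      congrArg (fun x : SU R (algebraMap F R t) => (x.1 : Matrix I I (S R))) e1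
    rw [e3, ← hg0, map_comp', ev_toLaurent]
  -- determinant
  have hdet : g0.det = 1 := by
    apply GM.map_injective (Polynomial.toLaurent_injective (R := F))
    rw [RingHom.map_det, map_one]
    have e : (S.map (Polynomial.toLaurent (R := F))).mapMatrix g0 =
      (gg.1 : Matrix I I (S F[T;T⁻¹])) := hg0
    rw [e]
    exact gg.1.2
  let R₀ : Type := F[T;T⁻¹]
  let R₁ : Type := R₀[T;T⁻¹]
  let s : R₀ˣ := uT F
  -- multiplicativity
  have hmul : g0.map (S.map (Polynomial.eval₂RingHom (Polynomial.C.comp (algebraMap F R₀))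
        (Polynomial.X * Polynomial.C (s : R₀)))) =
      g0.map (S.map (Polynomial.eval₂RingHom (Polynomial.C.comp (algebraMap F R₀))
        Polynomial.X)) *
      g0.map (S.map (Polynomial.eval₂RingHom (Polynomial.C.comp (algebraMap F R₀))
        (Polynomial.C (s : R₀)))) := by
    apply matmap_injective (Polynomial.toLaurent_injective (R := R₀))
    show Matrix.map _ _ = Matrix.map _ _
    let s1 : R₁ˣ := Units.map (LaurentPolynomial.C (R := R₀) : R₀ →* R₁) s
    have e := congrArg (fun x : SU R₁ (algebraMap F R₁ t) => (x.1 : Matrix I I (S R₁)))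
      (map_mul (φ.app R₁) (uT R₀) s1)
    have e' : (((show SU R₁ (algebraMap F R₁ t) from φ.app R₁ (uT R₀ * s1)).1 :
        Matrix I I (S R₁))) = (((show SU R₁ (algebraMap F R₁ t) from φ.app R₁ (uT R₀)).1 :
        Matrix I I (S R₁))) * (((show SU R₁ (algebraMap F R₁ t) from φ.app R₁ s1).1 :
        Matrix I I (S R₁))) := e
    rw [hval, hval, hval] at e'
    rw [Matrix.map_mul, map_comp', map_comp', map_comp']
    have hc : (Polynomial.toLaurent (R := R₀)).comp
        (Polynomial.C.comp (algebraMap F R₀)) = algebraMap F R₁ := by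
      apply RingHom.ext
      intro a
      show Polynomial.toLaurent (Polynomial.C (algebraMap F R₀ a)) = algebraMap F R₁ a
      rw [Polynomial.toLaurent_C]
      rfl
    have key : ∀ (p : Polynomial R₀) (u : R₁), Polynomial.toLaurent p = u →
        (Polynomial.toLaurent (R := R₀)).comp (Polynomial.eval₂RingHom
          (Polynomial.C.comp (algebraMap F R₀)) p) =
        Polynomial.eval₂RingHom (algebraMap F R₁) u := by
      rintro p u rfl
      rw [← hc]
      apply RingHom.ext
      intro q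
      simp only [RingHom.comp_apply, Polynomial.coe_eval₂RingHom]
      rw [Polynomial.hom_eval₂]
    rw [key _ _ (by rw [map_mul, Polynomial.toLaurent_X, Polynomial.toLaurent_C]),
      key _ _ Polynomial.toLaurent_X, key _ _ (Polynomial.toLaurent_C _)]
    exact e'
  have hev := congrArg (fun X : Matrix I I (S (Polynomial R₀)) =>
    X.map (S.map (Polynomial.evalRingHom (0 : R₀)))) hmul
  simp only [Matrix.map_mul, map_comp'] at hev
  have key2 : ∀ (p : Polynomial R₀), (Polynomial.evalRingHom (0 : R₀)).comp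
      (Polynomial.eval₂RingHom (Polynomial.C.comp (algebraMap F R₀)) p) =
      Polynomial.eval₂RingHom (algebraMap F R₀) (Polynomial.eval 0 p) := by
    intro p
    apply RingHom.ext
    intro q
    simp only [RingHom.comp_apply, Polynomial.coe_eval₂RingHom]
    rw [Polynomial.hom_eval₂]
    congr 1
    apply RingHom.ext
    intro a
    simp
  rw [key2, key2, key2] at hev
  simp only [Polynomial.eval_mul, Polynomial.eval_X, Polynomial.eval_C, zero_mul] at hev
  set c : Matrix I I (S R₀) := g0.map (S.map (Polynomial.eval₂RingHom (algebraMap F R₀) 0))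
  have hc : c.det = 1 := by
    have e := congrArg (S.map (Polynomial.eval₂RingHom (algebraMap F R₀) 0)) hdet
    rw [RingHom.map_det, map_one] at e
    exact e
  have hs : g0.map (S.map (Polynomial.eval₂RingHom (algebraMap F R₀) (s : R₀))) = 1 := by
    have hu : IsUnit c := by
      rw [Matrix.isUnit_iff_isUnit_det, hc]
      exact isUnit_one
    exact (hu.mul_right_inj.mp ((mul_one c).trans hev)).symm
  rw [← hval] at hs
  have h1 : φ.app R₀ s = φ.app R₀ 1 := by
    rw [map_one]
    apply Subtype.ext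
    apply Subtype.ext
    exact hs
  have h2 : s = 1 := hφ R₀ h1
  have h3 : (T 1 : F[T;T⁻¹]) = 1 := congrArg Units.val h2
  have h4 := congrArg (fun p : F[T;T⁻¹] => p.coeff 0) h3
  rw [← T_zero] at h4
  simp only [T_apply] at h4
  norm_num at h4

end Pool.Agent.helper83.TA
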