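import Pool.Agent.helper83.TA.Defs

/-!
# The one-parameter subgroup of a hyperbolic pair (module ISO of MP_fc48e7_al)
-/

set_option autoImplicit false

namespace Pool.Agent.helper83.TA

open GroupFunctor Matrix

namespace ISO

section alg
variable {A : Type} [CommRing A] {m : Type} [Fintype m] [DecidableEq m]

/-- `1 + (s - 1) P + (s' - 1) P'` -/
def ph (P P' : Matrix m m A) (s s' : A) : Matrix m m A := 1 + (s - 1) • P + (s' - 1) • P'

theorem ph_mul {P P' : Matrix m m A} (h : P * P = P) (h' : P' * P' = P') (h0 : P * P' = 0)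
    (h0' : P' * P = 0) (s s' u u' : A) :
    ph P P' s s' * ph P P' u u' = ph P P' (s * u) (s' * u') := by
  unfold ph
  simp only [add_mul, mul_add, one_mul, mul_one, smul_mul_assoc, mul_smul_comm, h, h', h0, h0',
    smul_zero, add_zero, zero_add]
  module

theorem ph_one (P P' : Matrix m m A) : ph P P' 1 1 = 1 := by
  simp [ph]

theorem ph_eq_mul {P P' : Matrix m m A} (h0 : P * P' = 0) (s s' : A) :
    ph P P' s s' = (1 + (s - 1) • P) * (1 + (s' - 1) • P') := by
  unfold ph
  simp only [add_mul, mul_add, one_mul, mul_one, smul_mul_assoc, mul_smul_comm, h0,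
    smul_zero, add_zero]

end alg

section
variable {R : Type} [CommRing R]

theorem C3_sg (t : R) : (C3 t).map S.sg = C3 t := by
  ext1 i j
  fin_cases i <;> fin_cases j <;> simp [C3, S.sg_C]

theorem C3_rh (t : R) : (C3 t).map S.rh = C3 t := by
  ext1 i j
  fin_cases i <;> fin_cases j <;> simp [C3, S.rh_C]

theorem B3_sg (t : R) : (B3 t).map S.sg = B3 t := by
  ext1 i j
  fin_cases i <;> fin_cases j <;> simp [B3, S.sg_C]

theorem B3_rh (t : R) : (B3 t).map S.rh = B3 t := by
  ext1 i j
  fin_cases i <;> fin_cases j <;> simp [B3, S.rh_C]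

theorem B_sg (t : R) : (B t).map S.sg = B t := by
  ext1 p q
  simp only [B, Matrix.map_apply]
  split_ifs
  · exact congrFun (congrFun (B3_sg t) p.2) q.2
  · simp

theorem B_rh (t : R) : (B t).map S.rh = B t := by
  ext1 p q
  simp only [B, Matrix.map_apply]
  split_ifs
  · exact congrFun (congrFun (B3_rh t) p.2) q.2
  · simp

theorem Q_sg (t : R) : (Q t).map S.sg = Q t := by
  ext1 p q
  simp only [Q, Matrix.map_apply]
  split_ifs
  · rw [map_mul, map_natCast]
    congr 1
    exact congrFun (congrFun (C3_sg t) p.2) q.2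
  · simp

theorem Q_rh (t : R) : (Q t).map S.rh = Q t := by
  ext1 p q
  simp only [Q, Matrix.map_apply]
  split_ifs
  · rw [map_mul, map_natCast]
    congr 1
    exact congrFun (congrFun (C3_rh t) p.2) q.2
  · simp

theorem C3_transpose (t : R) : (C3 t).transpose = C3 t := by
  ext1 i j
  fin_cases i <;> fin_cases j <;> simp [C3]

theorem Q_transpose (t : R) : (Q t).transpose = Q t := by
  ext1 p q
  simp only [Q, Matrix.transpose_apply]
  by_cases h : p.1 = q.1
  · rw [if_pos h, if_pos h.symm, h]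
    congr 1
    exact congrFun (congrFun (C3_transpose t) p.2) q.2
  · rw [if_neg h, if_neg (Ne.symm h)]

theorem C3_mul (t t' : R) (h : t * t' = 1) : C3 t * C3 t' = 1 := by
  have h' : (S.C t) * (S.C t') = 1 := by rw [← map_mul, h, map_one]
  ext1 i j
  fin_cases i <;> fin_cases j <;> simp [C3, Matrix.mul_apply, Fin.sum_univ_three, h']

theorem B3_C3 (t : R) : (B3 t).transpose * C3 t = C3 t * B3 t := by
  ext1 i j
  fin_cases i <;> fin_cases j <;> simp [C3, B3, Matrix.mul_apply, Fin.sum_univ_three]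

theorem BT_Q (t : R) : (B t).transpose * Q t = Q t * B t := by
  ext1 p q
  obtain ⟨k, i⟩ := p
  obtain ⟨l, j⟩ := q
  have key := congrFun (congrFun (B3_C3 t) i) j
  simp only [Matrix.mul_apply, Matrix.transpose_apply, Fintype.sum_prod_type, B, Q] at key ⊢
  by_cases h : k = l
  · subst h
    rw [Finset.sum_eq_single k, Finset.sum_eq_single k]
    · simp only [if_true]
      rw [Finset.sum_congr rfl (fun x _ => mul_left_comm (B3 t x i) _ (C3 t x j)),
        ← Finset.mul_sum, key, Finset.mul_sum]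
      exact Finset.sum_congr rfl (fun x _ => (mul_assoc _ _ _).symm)
    · intro b _ hb
      simp [hb, Ne.symm hb]
    · intro hb
      simp at hb
    · intro b _ hb
      simp [hb, Ne.symm hb]
    · intro hb
      simp at hb
  · rw [Finset.sum_eq_zero, Finset.sum_eq_zero]
    · intro b _
      apply Finset.sum_eq_zero
      intro x _
      by_cases hb : k = b
      · subst hb
        simp [h]
      · simp [hb]
    · intro b _
      apply Finset.sum_eq_zero
      intro x _
      by_cases hb : b = k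
      · subst hb
        simp [h]
      · simp [hb]

variable {m n k : Type} [Fintype m] [DecidableEq m] [Fintype n] [DecidableEq n]
  [Fintype k] [DecidableEq k]

/-- the conjugate transpose -/
def ct (X : Matrix m n (S R)) : Matrix n m (S R) := (X.map S.rh).transpose

theorem ct_ct (X : Matrix m n (S R)) : ct (ct X) = X := by
  ext1 i j
  simp [ct, S.rh_rh]

theorem ct_mul (X : Matrix m n (S R)) (Y : Matrix n k (S R)) : ct (X * Y) = ct Y * ct X := by
  unfold ct
  rw [Matrix.map_mul, Matrix.transpose_mul]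

theorem ct_add (X Y : Matrix m n (S R)) : ct (X + Y) = ct X + ct Y := by
  unfold ct
  ext1 i j
  simp

theorem ct_one : ct (1 : Matrix m m (S R)) = 1 := by
  unfold ct
  rw [Matrix.map_one _ (map_zero _) (map_one _), Matrix.transpose_one]

theorem ct_smul (a : R) (X : Matrix m n (S R)) : ct (S.C a • X) = S.C a • ct X := by
  unfold ct
  ext1 i j
  simp [S.rh_C]

theorem ct_C3 (t : R) : ct (C3 t) = C3 t := by
  rw [ct, C3_rh, C3_transpose]

theorem ct_Q (t : R) : ct (Q t) = Q t := by
  rw [ct, Q_rh, Q_transpose]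

theorem ct_B (t : R) : ct (B t) = (B t).transpose := by
  rw [ct, B_rh]

theorem ct_B3 (t : R) : ct (B3 t) = (B3 t).transpose := by
  rw [ct, B3_rh]

theorem sg_mul (X : Matrix m n (S R)) (Y : Matrix n k (S R)) :
    (X * Y).map S.sg = X.map S.sg * Y.map S.sg := Matrix.map_mul

theorem sg_ct (X : Matrix m n (S R)) : (ct X).map S.sg = ct ((X.map S.sg).map S.sg) := by
  ext1 i j
  simp [ct, S.sg_rh]

theorem sg3 (X : Matrix m n (S R)) : ((X.map S.sg).map S.sg).map S.sg = X := by
  ext1 i j
  simp [S.sg_sg_sg]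

/-- the projection -/
def pr (t t' : R) (V W : Matrix I (Fin 3) (S R)) : Matrix I I (S R) :=
  V * (C3 t' * (ct W * Q t))

section facts
variable {t t' : R} (htt : t * t' = 1) {V W : Matrix I (Fin 3) (S R)}

theorem pr_mul_pr {V' W' : Matrix I (Fin 3) (S R)} :
    pr t t' V W * pr t t' V' W' = V * (C3 t' * ((ct W * Q t * V') * (C3 t' * (ct W' * Q t)))) := by
  unfold pr
  simp only [Matrix.mul_assoc]

include htt in
theorem pr_idem (h : ct W * Q t * V = C3 t) : pr t t' V W * pr t t' V W = pr t t' V W := by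
  rw [pr_mul_pr, h, ← Matrix.mul_assoc (C3 t) (C3 t'), C3_mul _ _ htt, Matrix.one_mul]
  rfl

theorem pr_zero {V' W' : Matrix I (Fin 3) (S R)} (h : ct W * Q t * V' = 0) :
    pr t t' V W * pr t t' V' W' = 0 := by
  rw [pr_mul_pr, h, Matrix.zero_mul, Matrix.mul_zero, Matrix.mul_zero]

theorem ct_pr : ct (pr t t' V W) * Q t = Q t * pr t t' W V := by
  unfold pr
  rw [ct_mul, ct_mul, ct_mul, ct_ct, ct_Q, ct_C3]
  simp only [Matrix.mul_assoc]

include htt in
theorem C3_B3 : C3 t' * (B3 t).transpose = B3 t * C3 t' := by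
  have h1 : C3 t * C3 t' = 1 := C3_mul _ _ htt
  have h2 : C3 t' * C3 t = 1 := C3_mul _ _ (by rw [mul_comm]; exact htt)
  calc C3 t' * (B3 t).transpose = C3 t' * ((B3 t).transpose * C3 t) * C3 t' := by
        rw [Matrix.mul_assoc, Matrix.mul_assoc, h1, Matrix.mul_one]
    _ = (C3 t' * C3 t) * B3 t * C3 t' := by
        rw [B3_C3]
        simp only [Matrix.mul_assoc]
    _ = B3 t * C3 t' := by rw [h2, Matrix.one_mul]

include htt in
theorem sg_pr (hV : V.map S.sg * B3 t = B t * V) (hW : W.map S.sg * B3 t = B t * W) :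
    (pr t t' V W).map S.sg * B t = B t * pr t t' V W := by
  have e1 : W * B3 t = B t * (W.map S.sg).map S.sg := by
    have := congrArg (fun X : Matrix I (Fin 3) (S R) => (X.map S.sg).map S.sg) hW
    simp only [Matrix.map_mul, B3_sg, B_sg, sg3] at this
    exact this
  have e2 : (B3 t).transpose * ct W = ct ((W.map S.sg).map S.sg) * (B t).transpose := by
    have := congrArg ct e1
    rw [ct_mul, ct_mul, ct_B3, ct_B] at this
    exact this
  unfold pr
  rw [Matrix.map_mul, Matrix.map_mul, Matrix.map_mul, C3_sg, Q_sg, sg_ct]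
  calc V.map S.sg * (C3 t' * (ct ((W.map S.sg).map S.sg) * Q t)) * B t
      = V.map S.sg * (C3 t' * (ct ((W.map S.sg).map S.sg) * (Q t * B t))) := by
        simp only [Matrix.mul_assoc]
    _ = V.map S.sg * (C3 t' * ((ct ((W.map S.sg).map S.sg) * (B t).transpose) * Q t)) := by
        rw [← BT_Q]
        simp only [Matrix.mul_assoc]
    _ = V.map S.sg * ((C3 t' * (B3 t).transpose) * (ct W * Q t)) := by
        rw [← e2]
        simp only [Matrix.mul_assoc]
    _ = (V.map S.sg * B3 t) * (C3 t' * (ct W * Q t)) := by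
        rw [C3_B3 htt]
        simp only [Matrix.mul_assoc]
    _ = B t * (V * (C3 t' * (ct W * Q t))) := by
        rw [hV]
        simp only [Matrix.mul_assoc]

include htt in
theorem det_pr (h : ct W * Q t * V = C3 t) (c : S R) :
    (1 + c • pr t t' V W).det = (1 + c) ^ 3 := by
  unfold pr
  rw [← Matrix.smul_mul, Matrix.det_one_add_mul_comm, Matrix.mul_smul]
  have h2 : C3 t' * C3 t = 1 := C3_mul _ _ (by rw [mul_comm]; exact htt)
  rw [Matrix.mul_assoc, h, h2]
  have : (1 : Matrix (Fin 3) (Fin 3) (S R)) + c • 1 = (1 + c) • 1 := by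
    rw [add_smul, one_smul]
  rw [this, Matrix.det_smul, Matrix.det_one, Fintype.card_fin, mul_one]

end facts

/-- the hypotheses over the ring `R` -/
structure Pair (R : Type) [CommRing R] (t t' : R) (V W : Matrix I (Fin 3) (S R)) : Prop where
  htt : t * t' = 1
  hV : V.map S.sg * B3 t = B t * V
  hW : W.map S.sg * B3 t = B t * W
  h1 : ct V * Q t * V = 0
  h2 : ct V * Q t * W = C3 t
  h2' : ct W * Q t * V = C3 t
  h3 : ct W * Q t * W = 0

variable {t t' : R} {V W : Matrix I (Fin 3) (S R)}

/-- the matrix of the one-parameter subgroup -/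
def pm (t t' : R) (V W : Matrix I (Fin 3) (S R)) (s s' : R) : Matrix I I (S R) :=
  ph (pr t t' V W) (pr t t' W V) (S.C s) (S.C s')

theorem pm_one (t t' : R) (V W : Matrix I (Fin 3) (S R)) : pm t t' V W 1 1 = 1 := by
  unfold pm
  rw [map_one, ph_one]

theorem pm_mul (h : Pair R t t' V W) (s s' u u' : R) :
    pm t t' V W s s' * pm t t' V W u u' = pm t t' V W (s * u) (s' * u') := by
  unfold pm
  rw [ph_mul (pr_idem h.htt h.h2') (pr_idem h.htt h.h2) (pr_zero h.h3) (pr_zero h.h1),
    map_mul, map_mul]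

theorem pm_det (h : Pair R t t' V W) {s s' : R} (hs : s * s' = 1) :
    (pm t t' V W s s').det = 1 := by
  unfold pm
  rw [ph_eq_mul (pr_zero h.h3), Matrix.det_mul, det_pr h.htt h.h2', det_pr h.htt h.h2,
    add_sub_cancel, add_sub_cancel, ← mul_pow, ← map_mul, hs, map_one, one_pow]

theorem ct_sub (X Y : Matrix m n (S R)) : ct (X - Y) = ct X - ct Y := by
  unfold ct
  ext1 i j
  simp

theorem ct_pm (s s' : R) :
    ct (pm t t' V W s s') * Q t = Q t * pm t t' V W s' s := by
  unfold pm ph
  have e : ∀ a : R, S.C a - 1 = S.C (a - 1) := fun a => by rw [map_sub, map_one]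
  rw [e, e, ct_add, ct_add, ct_smul, ct_smul, ct_one, add_mul, add_mul, Matrix.smul_mul,
    Matrix.smul_mul, ct_pr, ct_pr, mul_add, mul_add, Matrix.mul_smul, Matrix.mul_smul, one_mul,
    mul_one]
  abel

theorem sg_pm (h : Pair R t t' V W) (s s' : R) :
    (pm t t' V W s s').map S.sg * B t = B t * pm t t' V W s s' := by
  unfold pm ph
  have e : ∀ (a : R) (X : Matrix I I (S R)), ((S.C a - 1) • X).map S.sg =
      (S.C a - 1) • X.map S.sg := by
    intro a X
    ext1 i j
    simp [S.sg_C]
  have e' : ∀ (X Y : Matrix I I (S R)), (X + Y).map S.sg = X.map S.sg + Y.map S.sg := by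
    intro X Y
    ext1 i j
    simp
  rw [e', e', e, e, Matrix.map_one _ (map_zero _) (map_one _), add_mul, add_mul, Matrix.smul_mul,
    Matrix.smul_mul, sg_pr h.htt h.hV h.hW, sg_pr h.htt h.hW h.hV, mul_add, mul_add,
    Matrix.mul_smul, Matrix.mul_smul, one_mul, mul_one]

/-- the element of the group -/
def el (h : Pair R t t' V W) (s : Rˣ) : SU R t :=
  ⟨⟨pm t t' V W s (s⁻¹ : Rˣ), pm_det h (by simp)⟩, by
    refine ⟨sg_pm h _ _, ?_⟩
    show ct (pm t t' V W s (s⁻¹ : Rˣ)) * Q t * pm t t' V W s (s⁻¹ : Rˣ) = Q t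
    rw [ct_pm, Matrix.mul_assoc, pm_mul h, Units.inv_mul, Units.mul_inv, pm_one,
      Matrix.mul_one]⟩

/-- the one-parameter subgroup on points -/
def hom (h : Pair R t t' V W) : Rˣ →* SU R t where
  toFun := el h
  map_one' := by
    apply Subtype.ext
    apply Subtype.ext
    show pm t t' V W ((1 : Rˣ) : R) (((1 : Rˣ)⁻¹ : Rˣ) : R) = 1
    rw [inv_one, Units.val_one, pm_one]
  map_mul' x y := by
    apply Subtype.ext
    apply Subtype.ext
    show pm t t' V W ((x * y : Rˣ) : R) (((x * y)⁻¹ : Rˣ) : R) =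
      pm t t' V W (x : Rˣ) (x⁻¹ : Rˣ) * pm t t' V W (y : Rˣ) (y⁻¹ : Rˣ)
    rw [pm_mul h]
    congr 1
    rw [mul_inv]
    rfl

theorem hom_injective (h : Pair R t t' V W) : Function.Injective (hom h) := by
  have key : ∀ s : Rˣ, ct W * Q t * (pm t t' V W s (s⁻¹ : Rˣ) * V) = S.C (s : R) • C3 t := by
    intro s
    have e1 : pr t t' V W * V = V := by
      unfold pr
      rw [Matrix.mul_assoc, Matrix.mul_assoc, h.h2',
        C3_mul _ _ (by rw [mul_comm]; exact h.htt), Matrix.mul_one]
    have e2 : pr t t' W V * V = 0 := by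
      unfold pr
      rw [Matrix.mul_assoc, Matrix.mul_assoc, h.h1, Matrix.mul_zero, Matrix.mul_zero]
    unfold pm ph
    rw [Matrix.add_mul, Matrix.add_mul, Matrix.smul_mul, Matrix.smul_mul, e1, e2, smul_zero,
      add_zero, Matrix.one_mul, sub_smul, one_smul, add_sub_cancel, Matrix.mul_smul, h.h2']
  intro s u hsu
  have h1 : pm t t' V W s (s⁻¹ : Rˣ) = pm t t' V W u (u⁻¹ : Rˣ) :=
    congrArg (fun x : SU R t => (x.1 : Matrix I I (S R))) hsu
  have h2 := key s
  rw [h1, key u] at h2
  have h3 := congrFun (congrFun h2 0) 0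
  simp only [Matrix.smul_apply, C3, smul_eq_mul, Matrix.of_apply, Matrix.cons_val', Matrix.cons_val_zero, mul_one] at h3
  have h4 := congrArg S.a0 h3
  simp only [S.C_a0] at h4
  exact Units.ext h4.symm

end

end ISO

open ISO

/-- (module ISO) the one-parameter subgroup of a hyperbolic pair -/
theorem isotropic_of_pair (F : Type) [Field F] (t : F) (ht : t ≠ 0)
    (V W : Matrix I (Fin 3) (S F))
    (hV : V.map S.sg * B3 t = B t * V) (hW : W.map S.sg * B3 t = B t * W)
    (h1 : (V.map S.rh).transpose * Q t * V = 0) (h2 : (V.map S.rh).transpose * Q t * W = C3 t)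
    (h3 : (W.map S.rh).transpose * Q t * W = 0) : (unitary F t).Isotropic := by
  have h2' : ct W * Q t * V = C3 t := by
    have := congrArg ct h2
    change ct (ct V * Q t * W) = ct (C3 t) at this
    rw [ct_mul, ct_mul, ct_ct, ct_Q, ct_C3, ← Matrix.mul_assoc] at this
    exact this
  have hp : ∀ (R : Type) [CommRing R] [Algebra F R], Pair R (algebraMap F R t)
      (algebraMap F R t⁻¹) (V.map (S.map (algebraMap F R))) (W.map (S.map (algebraMap F R))) := by
    intro R _ _
    have esg : ∀ X : Matrix I (Fin 3) (S F), (X.map (S.map (algebraMap F R))).map S.sg =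
        (X.map S.sg).map (S.map (algebraMap F R)) := by
      intro X
      ext1 i j
      simp [S.map_sg]
    have ect : ∀ X : Matrix I (Fin 3) (S F), ct (X.map (S.map (algebraMap F R))) =
        (ct X).map (S.map (algebraMap F R)) := by
      intro X
      ext1 i j
      simp [ct, S.map_rh]
    have eB3 : B3 (algebraMap F R t) = (B3 t).map (S.map (algebraMap F R)) := by
      ext1 i j
      fin_cases i <;> fin_cases j <;> simp [B3, S.map_C]
    have eC3 : C3 (algebraMap F R t) = (C3 t).map (S.map (algebraMap F R)) := by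
      ext1 i j
      fin_cases i <;> fin_cases j <;> simp [C3, S.map_C]
    refine ⟨?_, ?_, ?_, ?_, ?_, ?_, ?_⟩
    · rw [← map_mul, mul_inv_cancel₀ ht, map_one]
    · rw [esg, eB3, ← B_map, ← Matrix.map_mul, ← Matrix.map_mul, hV]
    · rw [esg, eB3, ← B_map, ← Matrix.map_mul, ← Matrix.map_mul, hW]
    · rw [ect, ← Q_map, ← Matrix.map_mul, ← Matrix.map_mul]
      exact (congrArg (fun X : Matrix (Fin 3) (Fin 3) (S F) =>
        X.map (S.map (algebraMap F R))) h1).trans (Matrix.map_zero _ (map_zero _))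
    · rw [ect, ← Q_map, ← Matrix.map_mul, ← Matrix.map_mul, eC3]
      exact congrArg (fun X : Matrix (Fin 3) (Fin 3) (S F) =>
        X.map (S.map (algebraMap F R))) h2
    · rw [ect, ← Q_map, ← Matrix.map_mul, ← Matrix.map_mul, eC3, h2']
    · rw [ect, ← Q_map, ← Matrix.map_mul, ← Matrix.map_mul]
      exact (congrArg (fun X : Matrix (Fin 3) (Fin 3) (S F) =>
        X.map (S.map (algebraMap F R))) h3).trans (Matrix.map_zero _ (map_zero _))
  refine ⟨⟨fun R _ _ => hom (hp R), ?_⟩, fun R _ _ => hom_injective (hp R)⟩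
  intro R R' _ _ _ _ f s
  change Rˣ at s
  apply Subtype.ext
  apply Subtype.ext
  show pm (algebraMap F R' t) (algebraMap F R' t⁻¹) (V.map (S.map (algebraMap F R')))
      (W.map (S.map (algebraMap F R'))) ((Units.map (f : R →* R') s : R'ˣ) : R')
      (((Units.map (f : R →* R') s)⁻¹ : R'ˣ) : R') =
    (pm (algebraMap F R t) (algebraMap F R t⁻¹) (V.map (S.map (algebraMap F R)))
      (W.map (S.map (algebraMap F R))) (s : R) ((s⁻¹ : Rˣ) : R)).map (S.map (f : R →+* R'))
  have hf : ∀ a : F, (f : R →+* R') (algebraMap F R a) = algebraMap F R' a := f.commutes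
  have eM : ∀ X : Matrix I (Fin 3) (S F), (X.map (S.map (algebraMap F R))).map
      (S.map (f : R →+* R')) = X.map (S.map (algebraMap F R')) := by
    intro X
    ext1 i j
    simp only [Matrix.map_apply]
    rw [S.map_map, AlgHom.comp_algebraMap]
  have epr : ∀ X Y : Matrix I (Fin 3) (S F),
      (pr (algebraMap F R t) (algebraMap F R t⁻¹) (X.map (S.map (algebraMap F R)))
        (Y.map (S.map (algebraMap F R)))).map (S.map (f : R →+* R')) =
      pr (algebraMap F R' t) (algebraMap F R' t⁻¹) (X.map (S.map (algebraMap F R')))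
        (Y.map (S.map (algebraMap F R'))) := by
    intro X Y
    have eC3 : (C3 (algebraMap F R t⁻¹)).map (S.map (f : R →+* R')) =
        C3 (algebraMap F R' t⁻¹) := by
      rw [← hf]
      ext1 i j
      fin_cases i <;> fin_cases j <;> simp [C3, S.map_C]
    have ect : ∀ X : Matrix I (Fin 3) (S R), (ct X).map (S.map (f : R →+* R')) =
        ct (X.map (S.map (f : R →+* R'))) := by
      intro X
      ext1 i j
      simp [ct, S.map_rh]
    unfold pr
    rw [Matrix.map_mul, Matrix.map_mul, Matrix.map_mul, Q_map, eC3, ect, eM, eM, hf]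
  unfold pm ph
  have e1 : ∀ X Y : Matrix I I (S R), (X + Y).map (S.map (f : R →+* R')) =
      X.map (S.map (f : R →+* R')) + Y.map (S.map (f : R →+* R')) := by
    intro X Y
    ext1 i j
    simp
  have e2 : ∀ (a : R) (X : Matrix I I (S R)), ((S.C a - 1) • X).map (S.map (f : R →+* R')) =
      (S.C (f a) - 1) • X.map (S.map (f : R →+* R')) := by
    intro a X
    ext1 i j
    simp [S.map_C]
  rw [e1, e1, e2, e2, epr, epr, Matrix.map_one _ (map_zero _) (map_one _)]
  rfl

end Pool.Agent.helper83.TA
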